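import Pool.Agent.Helper18.PS.St

/-!
# Project PS (MP_4afa08_nt), module C1: smooth numbers
-/

set_option autoImplicit false

namespace Pool.Agent.Helper25.PS

open Finset
open Nat (totient)
open Pool.Agent.Helper18.PS
open Pool.Agent.Helper30.LQ (StSMT)
open Pool.Agent.Helper94.DN (StRAN)

/-- Module C1. -/
theorem hC1 (hS : StSMT) : StC1 := by
  classical
  obtain ⟨C, hC, z₀, hz₀, h⟩ := hS
  refine ⟨C * Real.exp (8 * Real.exp 1), by positivity, max ⌈z₀⌉₊ ⌈Real.exp 4⌉₊, ?_⟩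
  intro y N hy hN
  have h1 : z₀ ≤ (y : ℝ) := (Nat.le_ceil z₀).trans (by exact_mod_cast (le_max_left _ _).trans hy)
  have h2 : Real.exp 4 ≤ (y : ℝ) :=
    (Nat.le_ceil _).trans (by exact_mod_cast (le_max_right _ _).trans hy)
  have h3 : (1 : ℝ) ≤ Real.exp 1 := Real.one_le_exp (by norm_num)
  have h4 : Real.exp 1 ≤ (y : ℝ) ^ (1 / 4 : ℝ) := by
    have e : Real.exp 1 = (Real.exp 4) ^ (1 / 4 : ℝ) := by
      rw [← Real.exp_mul]
      norm_num
    rw [e]
    exact Real.rpow_le_rpow (Real.exp_pos _).le h2 (by norm_num)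
  have h5 := h y (Real.exp 1) h1 h3 h4 N hN
  rw [Real.log_exp, mul_one] at h5
  have h6 : (((Icc 1 N).filter (fun n => ∀ l : ℕ, l.Prime → l ∣ n → l ≤ y)).card : ℝ) =
      (((Icc 1 N).filter (fun m => ∀ l : ℕ, l.Prime → l ∣ m → (l : ℝ) ≤ (y : ℝ))).card : ℝ) := by
    congr 2
    refine filter_congr fun n _ => ?_
    simp only [Nat.cast_le]
  have h7 : Real.exp (-(Real.log N / Real.log y - 8 * Real.exp 1)) =
      Real.exp (8 * Real.exp 1) * Real.exp (-(Real.log N / Real.log y)) := by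
    rw [← Real.exp_add]
    congr 1
    ring
  rw [h7] at h5
  refine le_trans (le_of_eq ?_) (h5.trans (le_of_eq (by ring)))
  convert h6 using 3

end Pool.Agent.Helper25.PS
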